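import Pool.Agent.H14.AVS.S1
import Pool.Agent.H46.AVR.BAS

/-!
# Board `avs`, module BSH: base change between two pairs of Gram matrices
-/

set_option autoImplicit false

namespace Pool.AVS

open Polynomial Matrix Pool.AVR

theorem bsh_thm : BSHStmt := by
  intro K _ a b c h G B G' B' hG hG' hdet
  obtain ⟨e, he1, he2⟩ := hG
  obtain ⟨e', he1', he2'⟩ := hG'
  have hmon := bas_monic a b c
  have hT : ∀ p q : K[X], AdjoinRoot.mk (cub a b c) p = AdjoinRoot.mk (cub a b c) q →
      ∀ r : K[X], basT a b c (r * p) = basT a b c (r * q) := by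
    intro p q hpq r
    rw [basT_apply, basT_apply]
    apply bas_tau_congr
    rw [← mul_sub]
    exact Dvd.dvd.mul_left (AdjoinRoot.mk_eq_mk.1 hpq) r
  -- the family `e'` is linearly independent modulo the cubic
  have hli : LinearIndependent K (fun i => AdjoinRoot.mk (cub a b c) (e' i)) := by
    rw [Fintype.linearIndependent_iff]
    intro w hw
    have hw' : AdjoinRoot.mk (cub a b c) (∑ i, w i • e' i) = AdjoinRoot.mk (cub a b c) 0 := by
      rw [map_zero, map_sum, ← hw]
      refine Finset.sum_congr rfl fun i _ => ?_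
      rw [AdjoinRoot.smul_mk]
    have hv : w ᵥ* G' = 0 := by
      funext j
      have h1 := hT _ _ hw' (h * e' j)
      rw [mul_zero, map_zero, Finset.mul_sum, map_sum] at h1
      rw [Matrix.vecMul, dotProduct, Pi.zero_apply, ← h1]
      refine Finset.sum_congr rfl fun i _ => ?_
      rw [mul_smul_comm, map_smul, smul_eq_mul, basT_apply, ← he1' i j]
      congr 2
      ring
    have hz := Matrix.eq_zero_of_vecMul_eq_zero hdet hv
    intro i
    exact congrFun hz i
  have hfin : Module.finrank K (AdjoinRoot (cub a b c)) = 3 := by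
    rw [(AdjoinRoot.powerBasis' hmon).finrank, AdjoinRoot.powerBasis'_dim, bas_natDegree]
  have : Module.Finite K (AdjoinRoot (cub a b c)) := (AdjoinRoot.powerBasis' hmon).finite
  have hspan := hli.span_eq_top_of_card_eq_finrank' (by rw [hfin, Fintype.card_fin])
  have hex : ∀ j : Fin 3, ∃ g : Fin 3 → K,
      ∑ i, g i • AdjoinRoot.mk (cub a b c) (e' i) = AdjoinRoot.mk (cub a b c) (e j) := by
    intro j
    have hmem : AdjoinRoot.mk (cub a b c) (e j) ∈
        Submodule.span K (Set.range fun i => AdjoinRoot.mk (cub a b c) (e' i)) := by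
      rw [hspan]
      trivial
    exact (Submodule.mem_span_range_iff_exists_fun K).1 hmem
  choose g hg using hex
  let g' : Matrix (Fin 3) (Fin 3) K := Matrix.of fun i j => g j i
  have hmk : ∀ j, AdjoinRoot.mk (cub a b c) (e j) =
      AdjoinRoot.mk (cub a b c) (∑ i, g' i j • e' i) := by
    intro j
    rw [← hg j, map_sum]
    refine Finset.sum_congr rfl fun i _ => ?_
    rw [AdjoinRoot.smul_mk]
    rfl
  have hprod : ∀ i j, AdjoinRoot.mk (cub a b c) (e i * e j) =
      AdjoinRoot.mk (cub a b c) ((∑ k, g' k i • e' k) * (∑ l, g' l j • e' l)) := by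
    intro i j
    rw [map_mul, map_mul, hmk i, hmk j]
  refine ⟨g', ?_, ?_⟩
  · ext i j
    rw [← bas_bilin (basT a b c) (h) e' G' (fun i j => by
      rw [basT_apply, ← he1' i j]; congr 1; ring) g' i j, ← hT _ _ (hprod i j), basT_apply,
      ← he1 i j]
    congr 1
    ring
  · ext i j
    rw [← bas_bilin (basT a b c) (X * h) e' B' (fun i j => by
      rw [basT_apply, ← he2' i j]; congr 1; ring) g' i j, ← hT _ _ (hprod i j), basT_apply,
      ← he2 i j]
    congr 1
    ring

end Pool.AVS
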