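import Pool.Agent.H14.AVS.S1
import Pool.Agent.H57.AVR.LDB

/-!
# Board `avs`, module CHI: the characteristic polynomial of `A B`
-/

set_option autoImplicit false

namespace Pool.AVS

open Polynomial Matrix Pool.AVR

theorem CHI.charpoly_eq {R : Type} [CommRing R] (B : Matrix (Fin 3) (Fin 3) R) (hB : Bᵀ = B) :
    (AA R * B).charpoly = cub (ia B) (ib B) (ic B) := by
  have h10 : B 1 0 = B 0 1 := by
    conv_lhs => rw [← hB]
    rfl
  have h20 : B 2 0 = B 0 2 := by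
    conv_lhs => rw [← hB]
    rfl
  have h21 : B 2 1 = B 1 2 := by
    conv_lhs => rw [← hB]
    rfl
  rw [LDB.charpoly_AA_mul B hB]
  have hb : ib B = 2 * B 0 2 * B 1 1 + B 0 2 ^ 2 - 2 * B 1 2 * B 0 1 - B 2 2 * B 0 0 := by
    unfold ib
    ring
  have hc : ic B = B 0 0 * B 1 1 * B 2 2 - B 0 0 * B 1 2 ^ 2 - B 0 1 ^ 2 * B 2 2 +
        2 * B 0 1 * B 1 2 * B 0 2 - B 0 2 ^ 2 * B 1 1 := by
    unfold ic
    rw [Matrix.det_fin_three, h10, h20, h21]
    ring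
  rw [← hb, ← hc]
  rfl

theorem chi_thm : CHIStmt := by
  intro R _ B hB
  refine ⟨CHI.charpoly_eq B hB, fun a b c => ⟨fun h => ?_, fun h => ?_⟩⟩
  · rw [CHI.charpoly_eq B hB] at h
    exact LDB.cub_inj h
  · obtain ⟨rfl, rfl, rfl⟩ := h
    exact CHI.charpoly_eq B hB

end Pool.AVS
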